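import Pool.Agent.N36.LC.Six

/-!
# An element killed by the commutator-times-Euler operator: identities modulo `L_5`

`A` is an associative algebra over a field `K` of characteristic zero.
-/

set_option autoImplicit false

namespace N36.DE

open N36.LC

section

variable {A : Type} [Ring A]

theorem L_anti (k : ℕ) : L A (k + 2) ≤ L A (k + 1) := L_succ_le k

/-- `[L_{i+1}, L_{j+1}] ⊆ L_{i+j+2}` -/
theorem L_L (i : ℕ) : ∀ (j : ℕ) (x y : A), x ∈ L A (i + 1) → y ∈ L A (j + 1) →
    x * y - y * x ∈ L A (i + j + 2) := by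
  induction i with
  | zero =>
    intro j x y _ hy
    have := L_comm_mem j x y hy
    simpa using this
  | succ i ih =>
    intro j x y hx hy
    have hx' : x ∈ AddSubgroup.closure {x | ∃ a b, b ∈ L A (i + 1) ∧ x = a * b - b * a} := hx
    refine AddSubgroup.closure_induction (p := fun x _ => x * y - y * x ∈ L A (i + 1 + j + 2))
      ?_ ?_ ?_ ?_ hx'
    · rintro _ ⟨a, b, hb, rfl⟩
      have h1 := L_comm_mem (i + j + 1) a _ (ih j b y hb hy)
      have h2 := ih (j + 1) b _ hb (L_comm_mem j a y hy)
      have e : (a * b - b * a) * y - y * (a * b - b * a) =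
          (a * (b * y - y * b) - (b * y - y * b) * a) -
          (b * (a * y - y * a) - (a * y - y * a) * b) := by noncomm_ring
      rw [e]
      refine sub_mem ?_ ?_
      · have : i + 1 + j + 2 = i + j + 1 + 2 := by ring
        rw [this]
        exact h1
      · have : i + 1 + j + 2 = i + (j + 1) + 2 := by ring
        rw [this]
        exact h2
    · simp
    · intro a b _ _ ha hb
      have e : (a + b) * y - y * (a + b) = (a * y - y * a) + (b * y - y * b) := by noncomm_ring
      rw [e]
      exact add_mem ha hb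
    · intro a _ ha
      have e : (-a) * y - y * (-a) = -(a * y - y * a) := by noncomm_ring
      rw [e]
      exact neg_mem ha

end

section

variable {K A : Type} [Field K] [CharZero K] [Ring A] [Algebra K A]

theorem L_smul (K : Type) {A : Type} [Field K] [Ring A] [Algebra K A] (k : ℕ) :
    ∀ (c : K) (x : A), x ∈ L A (k + 1) → c • x ∈ L A (k + 1) := by
  cases k with
  | zero =>
    intro c x _
    rw [L]
    trivial
  | succ k =>
    induction k with
    | zero =>
      intro c x hx
      refine AddSubgroup.closure_induction (p := fun x _ => c • x ∈ L A 2)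
        ?_ ?_ ?_ ?_ (show x ∈ AddSubgroup.closure _ from hx)
      · rintro _ ⟨a, b, hb, rfl⟩
        have e : c • (a * b - b * a) = a * (c • b) - (c • b) * a := by
          rw [smul_sub, mul_smul_comm, smul_mul_assoc]
        rw [e]
        exact L_comm_mem 0 a _ (by rw [L]; trivial)
      · simp
      · intro a b _ _ ha hb
        rw [smul_add]
        exact add_mem ha hb
      · intro a _ ha
        rw [smul_neg]
        exact neg_mem ha
    | succ k ih =>
      intro c x hx
      refine AddSubgroup.closure_induction (p := fun x _ => c • x ∈ L A (k + 1 + 1 + 1))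
        ?_ ?_ ?_ ?_ (show x ∈ AddSubgroup.closure _ from hx)
      · rintro _ ⟨a, b, hb, rfl⟩
        have e : c • (a * b - b * a) = a * (c • b) - (c • b) * a := by
          rw [smul_sub, mul_smul_comm, smul_mul_assoc]
        rw [e]
        exact L_comm_mem (k + 1) a _ (ih c b hb)
      · simp
      · intro a b _ _ ha hb
        rw [smul_add]
        exact add_mem ha hb
      · intro a _ ha
        rw [smul_neg]
        exact neg_mem ha

theorem L_div (K : Type) {A : Type} [Field K] [CharZero K] [Ring A] [Algebra K A] (k n : ℕ)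
    (hn : n ≠ 0) (x : A) (h : n • x ∈ L A (k + 1)) : x ∈ L A (k + 1) := by
  have h1 := L_smul K k ((n : K)⁻¹) _ h
  have e : ((n : K)⁻¹) • (n • x) = x := by
    rw [← Nat.cast_smul_eq_nsmul K, smul_smul, inv_mul_cancel₀ (by exact_mod_cast hn), one_smul]
  rwa [e] at h1

/-- the additive subgroup generated by the products `u t v`, `t ∈ L_3` -/
def M3 (A : Type) [Ring A] : AddSubgroup A :=
  AddSubgroup.closure {x | ∃ u t v, t ∈ L A 3 ∧ x = u * t * v}

theorem M3_ind {P : A → Prop} (h0 : P 0) (ha : ∀ x y, P x → P y → P (x + y))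
    (hn : ∀ x, P x → P (-x)) (hg : ∀ u t v, t ∈ L A 3 → P (u * t * v)) (x : A) (hx : x ∈ M3 A) :
    P x := by
  refine AddSubgroup.closure_induction (p := fun x _ => P x) ?_ h0 (fun x y _ _ => ha x y)
    (fun x _ => hn x) (show x ∈ AddSubgroup.closure _ from hx)
  rintro _ ⟨u, t, v, ht, rfl⟩
  exact hg u t v ht

theorem M3_left (a x : A) (hx : x ∈ M3 A) : a * x ∈ M3 A := by
  refine M3_ind (P := fun x => a * x ∈ M3 A) ?_ ?_ ?_ ?_ x hx
  · simp
  · intro x y hx hy
    rw [mul_add]
    exact add_mem hx hy
  · intro x hx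
    rw [mul_neg]
    exact neg_mem hx
  · intro u t v ht
    exact AddSubgroup.subset_closure ⟨a * u, t, v, ht, by simp only [mul_assoc]⟩

theorem M3_right (x a : A) (hx : x ∈ M3 A) : x * a ∈ M3 A := by
  refine M3_ind (P := fun x => x * a ∈ M3 A) ?_ ?_ ?_ ?_ x hx
  · simp
  · intro x y hx hy
    rw [add_mul]
    exact add_mem hx hy
  · intro x hx
    rw [neg_mul]
    exact neg_mem hx
  · intro u t v ht
    exact AddSubgroup.subset_closure ⟨u, t, v * a, ht, by simp only [mul_assoc]⟩

theorem L3_M3 (t : A) (ht : t ∈ L A 3) : t ∈ M3 A :=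
  AddSubgroup.subset_closure ⟨1, t, 1, ht, by simp⟩

omit [CharZero K] in
theorem M3_smul (c : K) (x : A) (hx : x ∈ M3 A) : c • x ∈ M3 A := by
  have e : c • x = algebraMap K A c * x := Algebra.smul_def c x
  rw [e]
  exact M3_left _ x hx

theorem M3_div (K : Type) {A : Type} [Field K] [CharZero K] [Ring A] [Algebra K A] (n : ℕ)
    (hn : n ≠ 0) (x : A) (h : n • x ∈ M3 A) : x ∈ M3 A := by
  have h1 := M3_smul ((n : K)⁻¹) _ h
  have e : ((n : K)⁻¹) • (n • x) = x := by
    rw [← Nat.cast_smul_eq_nsmul K, smul_smul, inv_mul_cancel₀ (by exact_mod_cast hn), one_smul]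
  rwa [e] at h1

/-- `[M_3, A] ⊆ L_4` -/
theorem M3_comm (K : Type) {A : Type} [Field K] [CharZero K] [Ring A] [Algebra K A]
    (n e : A) (hn : n ∈ M3 A) : n * e - e * n ∈ L A 4 := by
  refine M3_ind (P := fun n => n * e - e * n ∈ L A 4) ?_ ?_ ?_ ?_ n hn
  · simp
  · intro x y hx hy
    have : (x + y) * e - e * (x + y) = (x * e - e * x) + (y * e - e * y) := by noncomm_ring
    rw [this]
    exact add_mem hx hy
  · intro x hx
    have : (-x) * e - e * (-x) = -(x * e - e * x) := by noncomm_ring
    rw [this]
    exact neg_mem hx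
  · intro u t v ht
    refine AddSubgroup.closure_induction (p := fun t _ => u * t * v * e - e * (u * t * v) ∈ L A 4)
      ?_ ?_ ?_ ?_ (show t ∈ AddSubgroup.closure _ from ht)
    · rintro _ ⟨b, s, hs, rfl⟩
      refine AddSubgroup.closure_induction (p := fun s _ =>
        u * (b * s - s * b) * v * e - e * (u * (b * s - s * b) * v) ∈ L A 4)
        ?_ ?_ ?_ ?_ (show s ∈ AddSubgroup.closure _ from hs)
      · rintro _ ⟨c, d, _, rfl⟩
        exact L_div K 3 6 (by norm_num) _ (six A u v b c d e)
      · simp
      · intro x y _ _ hx hy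
        have : u * (b * (x + y) - (x + y) * b) * v * e - e * (u * (b * (x + y) - (x + y) * b) * v) =
            (u * (b * x - x * b) * v * e - e * (u * (b * x - x * b) * v)) +
            (u * (b * y - y * b) * v * e - e * (u * (b * y - y * b) * v)) := by noncomm_ring
        rw [this]
        exact add_mem hx hy
      · intro x _ hx
        have : u * (b * (-x) - (-x) * b) * v * e - e * (u * (b * (-x) - (-x) * b) * v) =
            -(u * (b * x - x * b) * v * e - e * (u * (b * x - x * b) * v)) := by noncomm_ring
        rw [this]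
        exact neg_mem hx
    · simp
    · intro x y _ _ hx hy
      have : u * (x + y) * v * e - e * (u * (x + y) * v) =
          (u * x * v * e - e * (u * x * v)) + (u * y * v * e - e * (u * y * v)) := by noncomm_ring
      rw [this]
      exact add_mem hx hy
    · intro x _ hx
      have : u * (-x) * v * e - e * (u * (-x) * v) =
          -(u * x * v * e - e * (u * x * v)) := by noncomm_ring
      rw [this]
      exact neg_mem hx

theorem M3_comm' (K : Type) {A : Type} [Field K] [CharZero K] [Ring A] [Algebra K A]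
    (e n : A) (hn : n ∈ M3 A) : e * n - n * e ∈ L A 4 := by
  have := neg_mem (M3_comm K n e hn)
  rwa [neg_sub] at this

/-- `[A, [M_3, A]] ⊆ L_5` -/
theorem M3_comm2 (K : Type) {A : Type} [Field K] [CharZero K] [Ring A] [Algebra K A]
    (a n e : A) (hn : n ∈ M3 A) : a * (n * e - e * n) - (n * e - e * n) * a ∈ L A 5 :=
  L_comm_mem 3 a _ (M3_comm K n e hn)

/-- `[M_3, [A, A]] ⊆ L_5` -/
theorem M3_L2 (K : Type) {A : Type} [Field K] [CharZero K] [Ring A] [Algebra K A]
    (n x y : A) (hn : n ∈ M3 A) : n * (x * y - y * x) - (x * y - y * x) * n ∈ L A 5 := by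
  have h1 := M3_comm2 K y n x hn
  have h2 := M3_comm2 K x n y hn
  have e : n * (x * y - y * x) - (x * y - y * x) * n =
      (x * (n * y - y * n) - (n * y - y * n) * x) - (y * (n * x - x * n) - (n * x - x * n) * y) := by
    noncomm_ring
  rw [e]
  exact sub_mem h2 h1

/-- AS -/
theorem AS (K : Type) {A : Type} [Field K] [CharZero K] [Ring A] [Algebra K A]
    (a x y n : A) (hn : n ∈ M3 A) :
    (a * ((x * y - y * x) * n) - (x * y - y * x) * n * a) +
      (y * ((x * a - a * x) * n) - (x * a - a * x) * n * y) ∈ L A 5 := by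
  have h1 := M3_comm2 K a (y * n) x (M3_left y n hn)
  have h2 := M3_comm2 K y (a * n) x (M3_left a n hn)
  have hl := M3_comm K n x hn
  have h3 := L_anti 4 (L_comm_mem 4 y _ (L_comm_mem 3 a _ hl))
  have h4 := L_comm_mem' 3 (a * y) _ hl
  have e : (a * ((x * y - y * x) * n) - (x * y - y * x) * n * a) +
      (y * ((x * a - a * x) * n) - (x * a - a * x) * n * y) =
      -(a * (y * n * x - x * (y * n)) - (y * n * x - x * (y * n)) * a) -
      (y * (a * n * x - x * (a * n)) - (a * n * x - x * (a * n)) * y) -
      ((n * x - x * n) * (a * y) - (a * y) * (n * x - x * n)) +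
      (y * (a * (n * x - x * n) - (n * x - x * n) * a) -
        (a * (n * x - x * n) - (n * x - x * n) * a) * y) := by
    noncomm_ring
  rw [e]
  exact add_mem (sub_mem (sub_mem (neg_mem h1) h2) h4) h3

end

end N36.DE
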