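import Pool.Agent.N36.DE.Alg

/-!
# The main computation modulo `L_5`
-/

set_option autoImplicit false

namespace N36.DE

open N36.LC

theorem c_L2 {A : Type} [Ring A] (x y : A) : x * y - y * x ∈ L A 2 :=
  L_comm_mem 0 x y (by rw [L]; trivial)

variable (K : Type) {A : Type} [Field K] [CharZero K] [Ring A] [Algebra K A]

include K

/-- `[a, [x, a] n] ∈ L_5` -/
theorem AS0 (a x n : A) (hn : n ∈ M3 A) :
    a * ((x * a - a * x) * n) - (x * a - a * x) * n * a ∈ L A 5 := by
  refine L_div K 4 2 (by norm_num) _ ?_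
  rw [two_nsmul]
  exact AS K a x a n hn

/-- `[a, [a, x] n] ∈ L_5` -/
theorem AS1 (a x n : A) (hn : n ∈ M3 A) :
    a * ((a * x - x * a) * n) - (a * x - x * a) * n * a ∈ L A 5 := by
  have h := neg_mem (AS0 K a x n hn)
  have e : -(a * ((x * a - a * x) * n) - (x * a - a * x) * n * a) =
      a * ((a * x - x * a) * n) - (a * x - x * a) * n * a := by noncomm_ring
  rwa [e] at h

/-- `[a, l [a, b]] ∈ L_5` for `l ∈ L_4` -/
theorem AS2 (a b l : A) (hl : l ∈ L A 4) :
    a * (l * (a * b - b * a)) - l * (a * b - b * a) * a ∈ L A 5 := by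
  have h1 := AS1 K a b l (L3_M3 l (L_anti 2 hl))
  have h2 := L_anti 4 (L_comm_mem 4 a _ (L_comm_mem' 3 (a * b - b * a) l hl))
  have e : a * (l * (a * b - b * a)) - l * (a * b - b * a) * a =
      (a * ((a * b - b * a) * l) - (a * b - b * a) * l * a) +
      (a * (l * (a * b - b * a) - (a * b - b * a) * l) -
        (l * (a * b - b * a) - (a * b - b * a) * l) * a) := by noncomm_ring
  rw [e]
  exact add_mem h1 h2

/-- `[a, b]^2 ∈ M_3` -/
theorem sq_M3 (a b : A) : (a * b - b * a) * (a * b - b * a) ∈ M3 A := by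
  refine M3_div K 2 (by norm_num) _ ?_
  have h1 := L3_M3 _ (L_comm_mem 1 a _ (c_L2 a (b * b)))
  have h2 := L3_M3 _ (L_comm_mem 1 a _ (c_L2 a b))
  have e : 2 • ((a * b - b * a) * (a * b - b * a)) =
      (a * (a * (b * b) - b * b * a) - (a * (b * b) - b * b * a) * a) -
      (b * (a * (a * b - b * a) - (a * b - b * a) * a) +
        (a * (a * b - b * a) - (a * b - b * a) * a) * b) := by
    noncomm_ring
  rw [e]
  exact sub_mem h1 (add_mem (M3_left _ _ h2) (M3_right _ _ h2))

/-- `[a, y] [a, b] ∈ M_3` -/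
theorem mul_M3 (a y b : A) : (a * y - y * a) * (a * b - b * a) ∈ M3 A := by
  refine M3_div K 2 (by norm_num) _ ?_
  have h1 := L3_M3 _ (L_comm_mem 1 a _ (c_L2 a (y * b)))
  have h2 := L3_M3 _ (L_comm_mem 1 a _ (c_L2 a b))
  have h3 := L3_M3 _ (L_comm_mem 1 a _ (c_L2 a y))
  have e : 2 • ((a * y - y * a) * (a * b - b * a)) =
      (a * (a * (y * b) - y * b * a) - (a * (y * b) - y * b * a) * a) -
      (a * (a * y - y * a) - (a * y - y * a) * a) * b -
      y * (a * (a * b - b * a) - (a * b - b * a) * a) := by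
    noncomm_ring
  rw [e]
  exact sub_mem (sub_mem h1 (M3_right _ _ h3)) (M3_left _ _ h2)

/-- `[y, a] [a, b] ∈ M_3` -/
theorem mul_M3' (a y b : A) : (y * a - a * y) * (a * b - b * a) ∈ M3 A := by
  have h := neg_mem (mul_M3 K a y b)
  have e : -((a * y - y * a) * (a * b - b * a)) = (y * a - a * y) * (a * b - b * a) := by
    noncomm_ring
  rwa [e] at h

/-- `[b, z] [a, b] ∈ M_3` -/
theorem mul_M3'' (a z b : A) : (b * z - z * b) * (a * b - b * a) ∈ M3 A := by
  have h := neg_mem (mul_M3 K b z a)
  have e : -((b * z - z * b) * (b * a - a * b)) = (b * z - z * b) * (a * b - b * a) := by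
    noncomm_ring
  rwa [e] at h

/-- `[a, [y, z] [a, b]^2] ∈ L_5` -/
theorem tau (a b y z : A) :
    a * ((y * z - z * y) * ((a * b - b * a) * (a * b - b * a))) -
      (y * z - z * y) * ((a * b - b * a) * (a * b - b * a)) * a ∈ L A 5 := by
  -- step 1
  have s1 := AS K a y z _ (sq_M3 K a b)
  -- step 2
  have hn1 := mul_M3' K a y b
  have s2 := L_anti 4 (L_comm_mem 4 z _ (M3_L2 K _ a b hn1))
  -- step 3, 4
  have s3 := AS K z a b _ hn1
  have s4 := AS K b z a _ hn1
  -- step 5
  have hl : (b * z - z * b) * (y * a - a * y) - (y * a - a * y) * (b * z - z * b) ∈ L A 4 :=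
    L_L 1 1 _ _ (c_L2 b z) (c_L2 y a)
  have s5 := AS2 K a b _ hl
  have s6 := AS0 K a y _ (mul_M3'' K a z b)
  set u := a * b - b * a with hu
  set r := y * a - a * y with hr
  set s := b * z - z * b with hs
  have e1 : z * b - b * z = -s := by rw [hs]; abel
  have e2 : a * z - z * a = -(z * a - a * z) := by abel
  have e : a * ((y * z - z * y) * (u * u)) - (y * z - z * y) * (u * u) * a =
      (a * ((y * z - z * y) * (u * u)) - (y * z - z * y) * (u * u) * a +
        (z * (r * (u * u)) - r * (u * u) * z)) -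
      (z * (r * u * u - u * (r * u)) - (r * u * u - u * (r * u)) * z) -
      (z * (u * (r * u)) - u * (r * u) * z +
        (b * ((a * z - z * a) * (r * u)) - (a * z - z * a) * (r * u) * b)) -
      (b * ((z * a - a * z) * (r * u)) - (z * a - a * z) * (r * u) * b +
        (a * ((z * b - b * z) * (r * u)) - (z * b - b * z) * (r * u) * a)) -
      (a * ((s * r - r * s) * u) - (s * r - r * s) * u * a) -
      (a * (r * (s * u)) - r * (s * u) * a) := by
    rw [e1, e2]
    noncomm_ring
  rw [e]
  exact sub_mem (sub_mem (sub_mem (sub_mem (sub_mem s1 s2) s3) s4) s5) s6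

/-- `δ w ∈ L_5`, where `w = [a, [a, b]^2]` and `δ a = c a`, `δ b = c b`, `c = [y, z]` -/
theorem main_mem (a b y z : A) (δ : A →ₗ[K] A)
    (hδ : ∀ f g, δ (f * g) = δ f * g + f * δ g)
    (ha : δ a = (y * z - z * y) * a) (hb : δ b = (y * z - z * y) * b) :
    δ (a * ((a * b - b * a) * (a * b - b * a)) - (a * b - b * a) * (a * b - b * a) * a) ∈
      L A 5 := by
  have t := tau K a b y z
  have hU := sq_M3 K a b
  have hc := c_L2 y z
  have h1 := M3_L2 K _ y z (M3_left a _ hU)
  have h2 := L_comm_mem 4 a _ (M3_L2 K _ y z hU)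
  -- m
  have hm1 := L3_M3 _ (L_comm_mem 1 a _ hc)
  have hm2 := L3_M3 _ (L_comm_mem' 1 b _ hc)
  have hm := add_mem (M3_right _ b hm1) (M3_right _ a hm2)
  have h3 := L_comm_mem 4 a _ (M3_L2 K _ a b hm)
  have h4 := AS1 K a b _ hm
  have h5 := AS2 K a b _ (L_L 1 1 _ _ (c_L2 a b) hc)
  have e0 : δ (a * ((a * b - b * a) * (a * b - b * a)) - (a * b - b * a) * (a * b - b * a) * a) =
      (y * z - z * y) * a * ((a * b - b * a) * (a * b - b * a)) -
        (a * b - b * a) * (a * b - b * a) * ((y * z - z * y) * a) +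
      (a * (((y * z - z * y) * a * b + a * ((y * z - z * y) * b) -
        ((y * z - z * y) * b * a + b * ((y * z - z * y) * a))) * (a * b - b * a) +
        (a * b - b * a) * ((y * z - z * y) * a * b + a * ((y * z - z * y) * b) -
        ((y * z - z * y) * b * a + b * ((y * z - z * y) * a)))) -
      (((y * z - z * y) * a * b + a * ((y * z - z * y) * b) -
        ((y * z - z * y) * b * a + b * ((y * z - z * y) * a))) * (a * b - b * a) +
        (a * b - b * a) * ((y * z - z * y) * a * b + a * ((y * z - z * y) * b) -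
        ((y * z - z * y) * b * a + b * ((y * z - z * y) * a)))) * a) := by
    simp only [map_sub, hδ, ha, hb]
    noncomm_ring
  rw [e0]
  generalize y * z - z * y = c at *
  have e : c * a * ((a * b - b * a) * (a * b - b * a)) -
        (a * b - b * a) * (a * b - b * a) * (c * a) +
      (a * ((c * a * b + a * (c * b) - (c * b * a + b * (c * a))) * (a * b - b * a) +
        (a * b - b * a) * (c * a * b + a * (c * b) - (c * b * a + b * (c * a)))) -
      ((c * a * b + a * (c * b) - (c * b * a + b * (c * a))) * (a * b - b * a) +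
        (a * b - b * a) * (c * a * b + a * (c * b) - (c * b * a + b * (c * a)))) * a) =
      -(a * ((a * b - b * a) * (a * b - b * a)) * c - c * (a * ((a * b - b * a) * (a * b - b * a))))
      + (a * ((a * b - b * a) * (a * b - b * a) * c - c * ((a * b - b * a) * (a * b - b * a))) -
        ((a * b - b * a) * (a * b - b * a) * c - c * ((a * b - b * a) * (a * b - b * a))) * a)
      + 5 • (a * (c * ((a * b - b * a) * (a * b - b * a))) -
        c * ((a * b - b * a) * (a * b - b * a)) * a)
      + 2 • (a * (((a * b - b * a) * c - c * (a * b - b * a)) * (a * b - b * a)) -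
        ((a * b - b * a) * c - c * (a * b - b * a)) * (a * b - b * a) * a)
      + (a * (((a * c - c * a) * b + (c * b - b * c) * a) * (a * b - b * a) -
        (a * b - b * a) * ((a * c - c * a) * b + (c * b - b * c) * a)) -
        (((a * c - c * a) * b + (c * b - b * c) * a) * (a * b - b * a) -
        (a * b - b * a) * ((a * c - c * a) * b + (c * b - b * c) * a)) * a)
      + 2 • (a * ((a * b - b * a) * ((a * c - c * a) * b + (c * b - b * c) * a)) -
        (a * b - b * a) * ((a * c - c * a) * b + (c * b - b * c) * a) * a) := by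
    noncomm_ring
  rw [e]
  exact add_mem (add_mem (add_mem (add_mem (add_mem (neg_mem h1) (L_anti 4 h2))
    (nsmul_mem t 5)) (nsmul_mem h5 2)) (L_anti 4 h3)) (nsmul_mem h4 2)

end N36.DE
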