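import Pool.Agent.N36.LC.Six

/-!
# A functional on the free algebra which vanishes on `L_5`
-/

set_option autoImplicit false

namespace N36.DE

open N36.LC

variable {K : Type} [Field K] {m : ℕ}

/-- the word as an element of the free algebra -/
noncomputable def wd (K : Type) [Field K] {m : ℕ} (u : List (Fin m)) : FreeAlgebra K (Fin m) :=
  (u.map (FreeAlgebra.ι K)).prod

theorem wd_append (u v : List (Fin m)) : wd K (u ++ v) = wd K u * wd K v := by
  unfold wd
  rw [List.map_append, List.prod_append]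

theorem wd_single (i : Fin m) : wd K [i] = FreeAlgebra.ι K i := by
  simp [wd]

/-- the words span the free algebra -/
theorem wd_span (x : FreeAlgebra K (Fin m)) :
    x ∈ Submodule.span K (Set.range (wd K : List (Fin m) → FreeAlgebra K (Fin m))) := by
  have hmul : ∀ x y, x ∈ Submodule.span K (Set.range (wd K : List (Fin m) → FreeAlgebra K (Fin m))) →
      y ∈ Submodule.span K (Set.range (wd K : List (Fin m) → FreeAlgebra K (Fin m))) →
      x * y ∈ Submodule.span K (Set.range (wd K : List (Fin m) → FreeAlgebra K (Fin m))) := by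
    intro x y hx hy
    have h := Submodule.mul_mem_mul hx hy
    rw [Submodule.span_mul_span] at h
    refine Submodule.span_mono ?_ h
    rintro _ ⟨_, ⟨u, rfl⟩, _, ⟨v, rfl⟩, rfl⟩
    exact ⟨u ++ v, wd_append u v⟩
  induction x using FreeAlgebra.induction with
  | grade0 r =>
    rw [Algebra.algebraMap_eq_smul_one]
    exact Submodule.smul_mem _ _ (Submodule.subset_span ⟨[], rfl⟩)
  | grade1 x => exact Submodule.subset_span ⟨[x], wd_single x⟩
  | mul a b ha hb => exact hmul a b ha hb
  | add a b ha hb => exact Submodule.add_mem _ ha hb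

/-- the coefficient of a word -/
noncomputable def cf (u : List (Fin m)) (a : FreeAlgebra K (Fin m)) : K :=
  (FreeAlgebra.equivMonoidAlgebraFreeMonoid (R := K) a).coeff (FreeMonoid.ofList u)

theorem cf_zero (u : List (Fin m)) : cf u (0 : FreeAlgebra K (Fin m)) = 0 := by
  simp [cf]

theorem cf_add (u : List (Fin m)) (a b : FreeAlgebra K (Fin m)) :
    cf u (a + b) = cf u a + cf u b := by
  simp [cf]

theorem cf_smul (u : List (Fin m)) (c : K) (a : FreeAlgebra K (Fin m)) :
    cf u (c • a) = c * cf u a := by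
  unfold cf
  rw [map_smul, MonoidAlgebra.coeff_smul, Finsupp.smul_apply, smul_eq_mul]

theorem equiv_wd (v : List (Fin m)) :
    FreeAlgebra.equivMonoidAlgebraFreeMonoid (R := K) (wd K v) =
      MonoidAlgebra.single (FreeMonoid.ofList v) 1 := by
  induction v with
  | nil =>
    have : wd K ([] : List (Fin m)) = 1 := rfl
    rw [this, map_one]
    rfl
  | cons i v ih =>
    have h1 : wd K (i :: v) = FreeAlgebra.ι K i * wd K v := by
      simp [wd]
    rw [h1, map_mul, ih]
    have h2 : FreeAlgebra.equivMonoidAlgebraFreeMonoid (R := K) (FreeAlgebra.ι K i) =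
        MonoidAlgebra.single (FreeMonoid.of i) 1 := by
      simp [FreeAlgebra.equivMonoidAlgebraFreeMonoid, MonoidAlgebra.of_apply]
    rw [h2, MonoidAlgebra.single_mul_single, mul_one]
    rfl

open Classical in
theorem cf_wd (u v : List (Fin m)) : cf u (wd K v) = if v = u then 1 else 0 := by
  unfold cf
  rw [equiv_wd, MonoidAlgebra.coeff_single, Finsupp.single_apply]
  congr 1

/-- the functional -/
noncomputable def F (K : Type) [Field K] : FreeAlgebra K (Fin 4) →ₗ[K] K where
  toFun a := cf [0, 1, 0, 0, 1] a + 3 * cf [0, 0, 1, 0, 1] a + 6 * cf [0, 0, 0, 1, 1] a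
  map_add' a b := by
    simp only [cf_add]
    ring
  map_smul' c a := by
    simp only [cf_smul, RingHom.id_apply, smul_eq_mul]
    ring

/-- the value of the functional on words -/
def G (u : List (Fin 4)) : ℤ :=
  (if u = [0, 1, 0, 0, 1] then 1 else 0) + 3 * (if u = [0, 0, 1, 0, 1] then 1 else 0) +
    6 * (if u = [0, 0, 0, 1, 1] then 1 else 0)

theorem F_wd (u : List (Fin 4)) : F K (wd K u) = (G u : K) := by
  show cf [0, 1, 0, 0, 1] (wd K u) + 3 * cf [0, 0, 1, 0, 1] (wd K u) +
    6 * cf [0, 0, 0, 1, 1] (wd K u) = (G u : K)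
  rw [cf_wd, cf_wd, cf_wd, G]
  push_cast
  rfl

theorem G_len (u : List (Fin 4)) (h : u.length ≠ 5) : G u = 0 := by
  unfold G
  rw [if_neg, if_neg, if_neg]
  · simp
  all_goals
    rintro rfl
    exact h rfl

/-- the bracket -/
def bk {A : Type} [Ring A] (a b : A) : A := a * b - b * a

/-- the signed sum over the sixteen words -/
def GG (a b c d e : List (Fin 4)) : ℤ :=
  G (a ++ (b ++ (c ++ (d ++ e)))) - G (a ++ (b ++ (c ++ (e ++ d))))
  - G (a ++ (b ++ ((d ++ e) ++ c))) + G (a ++ (b ++ ((e ++ d) ++ c)))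
  - G (a ++ ((c ++ (d ++ e)) ++ b)) + G (a ++ ((c ++ (e ++ d)) ++ b))
  + G (a ++ (((d ++ e) ++ c) ++ b)) - G (a ++ (((e ++ d) ++ c) ++ b))
  - G ((b ++ (c ++ (d ++ e))) ++ a) + G ((b ++ (c ++ (e ++ d))) ++ a)
  + G ((b ++ ((d ++ e) ++ c)) ++ a) - G ((b ++ ((e ++ d) ++ c)) ++ a)
  + G (((c ++ (d ++ e)) ++ b) ++ a) - G (((c ++ (e ++ d)) ++ b) ++ a)
  - G ((((d ++ e) ++ c) ++ b) ++ a) + G ((((e ++ d) ++ c) ++ b) ++ a)

theorem F_bk (a b c d e : List (Fin 4)) :
    F K (bk (wd K a) (bk (wd K b) (bk (wd K c) (bk (wd K d) (wd K e))))) = (GG a b c d e : K) := by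
  unfold bk GG
  simp only [mul_sub, sub_mul, ← wd_append, map_sub, F_wd]
  push_cast
  ring

theorem GG_single : ∀ a b c d e : Fin 4, GG [a] [b] [c] [d] [e] = 0 := by
  decide +kernel

theorem F_bk0 (a b c d e : List (Fin 4)) :
    F K (bk (wd K a) (bk (wd K b) (bk (wd K c) (bk (wd K d) (wd K e))))) = 0 := by
  by_cases hn : a = [] ∨ b = [] ∨ c = [] ∨ d = [] ∨ e = []
  · have h1 : wd K ([] : List (Fin 4)) = 1 := rfl
    rcases hn with rfl | rfl | rfl | rfl | rfl <;> simp [h1, bk]
  · push Not at hn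
    obtain ⟨ha, hb, hc, hd, he⟩ := hn
    rw [F_bk]
    by_cases hl : a.length + b.length + c.length + d.length + e.length = 5
    · have ha' := List.length_pos_iff.mpr ha
      have hb' := List.length_pos_iff.mpr hb
      have hc' := List.length_pos_iff.mpr hc
      have hd' := List.length_pos_iff.mpr hd
      have he' := List.length_pos_iff.mpr he
      obtain ⟨a, rfl⟩ := List.length_eq_one_iff.mp (show a.length = 1 by omega)
      obtain ⟨b, rfl⟩ := List.length_eq_one_iff.mp (show b.length = 1 by omega)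
      obtain ⟨c, rfl⟩ := List.length_eq_one_iff.mp (show c.length = 1 by omega)
      obtain ⟨d, rfl⟩ := List.length_eq_one_iff.mp (show d.length = 1 by omega)
      obtain ⟨e, rfl⟩ := List.length_eq_one_iff.mp (show e.length = 1 by omega)
      rw [GG_single, Int.cast_zero]
    · unfold GG
      have hG : ∀ u : List (Fin 4),
          u.length = a.length + b.length + c.length + d.length + e.length → G u = 0 := by
        intro u hu
        exact G_len u (by omega)
      repeat rw [hG _ (by simp only [List.length_append]; omega)]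
      simp

/-- a linear functional which vanishes on the brackets with words vanishes on all brackets -/
theorem lin_word (f : FreeAlgebra K (Fin m) →ₗ[K] K) (h : ∀ u, f (wd K u) = 0)
    (x : FreeAlgebra K (Fin m)) : f x = 0 := by
  refine Submodule.span_induction (p := fun x _ => f x = 0) ?_ ?_ ?_ ?_ (wd_span x)
  · rintro _ ⟨u, rfl⟩
    exact h u
  · simp
  · intro x y _ _ hx hy
    rw [map_add, hx, hy, add_zero]
  · intro c x _ hx
    rw [map_smul, hx, smul_zero]

/-- the bracket with a word as a linear map -/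
noncomputable def adl (a : FreeAlgebra K (Fin m)) :
    FreeAlgebra K (Fin m) →ₗ[K] FreeAlgebra K (Fin m) where
  toFun x := bk a x
  map_add' x y := by unfold bk; noncomm_ring
  map_smul' c x := by
    unfold bk
    rw [mul_smul_comm, smul_mul_assoc, ← smul_sub]
    rfl

/-- the bracket in the first variable as a linear map -/
noncomputable def adr (b : FreeAlgebra K (Fin m)) :
    FreeAlgebra K (Fin m) →ₗ[K] FreeAlgebra K (Fin m) where
  toFun x := bk x b
  map_add' x y := by unfold bk; noncomm_ring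
  map_smul' c x := by
    unfold bk
    rw [mul_smul_comm, smul_mul_assoc, ← smul_sub]
    rfl

/-- iterated brackets of words -/
noncomputable def nb (K : Type) [Field K] {m : ℕ} :
    List (Fin m) → List (List (Fin m)) → FreeAlgebra K (Fin m)
  | u, [] => wd K u
  | u, v :: vs => bk (wd K u) (nb K v vs)

theorem L_kill (k : ℕ) : ∀ (f : FreeAlgebra K (Fin m) →ₗ[K] K),
    (∀ (u : List (Fin m)) (us : List (List (Fin m))), us.length = k → f (nb K u us) = 0) →
    ∀ x, x ∈ L (FreeAlgebra K (Fin m)) (k + 1) → f x = 0 := by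
  induction k with
  | zero =>
    intro f h x _
    exact lin_word f (fun u => h u [] rfl) x
  | succ k ih =>
    intro f h x hx
    refine AddSubgroup.closure_induction (p := fun x _ => f x = 0)
      ?_ ?_ ?_ ?_ (show x ∈ AddSubgroup.closure _ from hx)
    · rintro _ ⟨a, b, hb, rfl⟩
      have h1 : ∀ u : List (Fin m), f (bk (wd K u) b) = 0 := by
        intro u
        refine ih (f ∘ₗ adl (wd K u)) ?_ b hb
        intro v vs hvs
        exact h u (v :: vs) (by simp [hvs])
      exact lin_word (f ∘ₗ adr b) h1 a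
    · simp
    · intro x y _ _ hx hy
      rw [map_add, hx, hy, add_zero]
    · intro x _ hx
      rw [map_neg, hx, neg_zero]

theorem F_L5 (x : FreeAlgebra K (Fin 4)) (hx : x ∈ L (FreeAlgebra K (Fin 4)) 5) : F K x = 0 := by
  refine L_kill 4 (F K) ?_ x hx
  intro u us hus
  match us, hus with
  | [b, c, d, e], _ => exact F_bk0 u b c d e

/-- the element `w = [a, [a, b]^2]` -/
noncomputable def ww (K : Type) [Field K] : FreeAlgebra K (Fin 4) :=
  bk (wd K [0]) (bk (wd K [0]) (wd K [1]) * bk (wd K [0]) (wd K [1]))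

theorem F_ww : F K (ww K) = 2 := by
  have e : F K (ww K) = ((G ([0] ++ (([0] ++ [1]) ++ ([0] ++ [1]))) -
    G ([0] ++ (([0] ++ [1]) ++ ([1] ++ [0]))) - G ([0] ++ (([1] ++ [0]) ++ ([0] ++ [1]))) +
    G ([0] ++ (([1] ++ [0]) ++ ([1] ++ [0]))) - G ((([0] ++ [1]) ++ ([0] ++ [1])) ++ [0]) +
    G ((([0] ++ [1]) ++ ([1] ++ [0])) ++ [0]) + G ((([1] ++ [0]) ++ ([0] ++ [1])) ++ [0]) -
    G ((([1] ++ [0]) ++ ([1] ++ [0])) ++ [0]) : ℤ) : K) := by
    unfold ww bk
    simp only [mul_sub, sub_mul, ← wd_append, map_sub, F_wd]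
    push_cast
    ring
  rw [e]
  have : (G ([0] ++ (([0] ++ [1]) ++ ([0] ++ [1]))) -
    G ([0] ++ (([0] ++ [1]) ++ ([1] ++ [0]))) - G ([0] ++ (([1] ++ [0]) ++ ([0] ++ [1]))) +
    G ([0] ++ (([1] ++ [0]) ++ ([1] ++ [0]))) - G ((([0] ++ [1]) ++ ([0] ++ [1])) ++ [0]) +
    G ((([0] ++ [1]) ++ ([1] ++ [0])) ++ [0]) + G ((([1] ++ [0]) ++ ([0] ++ [1])) ++ [0]) -
    G ((([1] ++ [0]) ++ ([1] ++ [0])) ++ [0]) : ℤ) = 2 := by decide
  rw [this]
  norm_num

theorem ww_notMem [CharZero K] : ww K ∉ L (FreeAlgebra K (Fin 4)) 5 := by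
  intro h
  have h1 := F_L5 _ h
  rw [F_ww] at h1
  norm_num at h1

end N36.DE
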